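import Pool.Agent.H23.KT.Large3
import Pool.Agent.H23.KT.Core

/-!
# The maximal density of `t`-cliques for `t ≥ Δ - ω + 5`, and for `t ≥ (Δ + 3) / 2`
-/

open Finset

namespace Pool.Agent.Results.MP_fd41b2_co.LargeCliques

open Pool.Agent.H23.KT

/-- **Theorem.** If `t ≥ 3` and (`t ≥ Δ - ω + 5` or `2 t ≥ Δ + 3`) then the Turán graph with
`Δ + 1` vertices and `ω` parts maximises the number of `t`-cliques per vertex among all graphs
with maximum degree at most `Δ` and clique number at most `ω`. -/
theorem result : ∀ t Δ ω : ℕ, 3 ≤ t → 3 ≤ ω → ω ≤ Δ + 1 → (Δ + 5 ≤ t + ω ∨ Δ + 3 ≤ 2 * t) →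
    (∀ v, ((SimpleGraph.turanGraph (Δ + 1) ω).neighborSet v).ncard ≤ Δ) ∧
    (SimpleGraph.turanGraph (Δ + 1) ω).CliqueFree (ω + 1) ∧
    (t ≤ ω → {s : Finset (Fin (Δ + 1)) | (SimpleGraph.turanGraph (Δ + 1) ω).IsNClique t s}.ncard
      = ∑ i ∈ range (t + 1),
        (Δ + 1 - ω).choose i * 2 ^ i * (2 * ω - (Δ + 1)).choose (t - i)) ∧
    ∀ m : ℕ, 0 < m → ∀ H : SimpleGraph (Fin m),
      (∀ v, (H.neighborSet v).ncard ≤ Δ) → H.CliqueFree (ω + 1) →
        {s : Finset (Fin m) | H.IsNClique t s}.ncard * (Δ + 1) ≤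
          {s : Finset (Fin (Δ + 1)) | (SimpleGraph.turanGraph (Δ + 1) ω).IsNClique t s}.ncard
            * m := by
  classical
  intro t Δ ω ht hω hωΔ hcond
  refine ⟨?_, SimpleGraph.turanGraph_cliqueFree (by omega), ?_, ?_⟩
  · intro v
    have h1 : (SimpleGraph.turanGraph (Δ + 1) ω).neighborSet v ⊆ ((univ.erase v :
        Finset (Fin (Δ + 1))) : Set (Fin (Δ + 1))) := by
      intro w hw
      rw [coe_erase, Set.mem_sdiff]
      refine ⟨mem_coe.2 (mem_univ _), ?_⟩
      rintro rfl
      exact (SimpleGraph.turanGraph (Δ + 1) ω).loopless.irrefl _ hw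
    have h2 := Set.ncard_le_ncard h1 (finite_toSet _)
    rw [Set.ncard_coe_finset, card_erase_of_mem (mem_univ _), card_univ, Fintype.card_fin] at h2
    omega
  · intro htω
    rw [ncard_eq_kc, kc_turan _ _ _ (by omega) hωΔ, E, P_formula]
    refine sum_congr rfl (fun i _ => ?_)
    congr 2
    omega
  · intro m _ H hdeg hcf
    have hdeg' : ∀ v, (nb H univ v).card ≤ Δ := by
      intro v
      have h1 : ((nb H univ v : Finset (Fin m)) : Set (Fin m)) = H.neighborSet v := by
        ext w
        rw [mem_coe, mem_nb, SimpleGraph.mem_neighborSet]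
        simp
      rw [← Set.ncard_coe_finset, h1]
      exact hdeg v
    have hCB : CB H (univ : Finset (Fin m)) ω := by
      intro S _ hS
      by_contra hlt
      push Not at hlt
      obtain ⟨S', hS', hc'⟩ := exists_subset_card_eq (show ω + 1 ≤ S.card by omega)
      exact hcf S' ⟨hS.subset (by
        intro y hy
        exact mem_coe.2 (hS' (mem_coe.1 hy))), hc'⟩
    have hmc : (univ : Finset (Fin m)).card = m := by simp
    rw [ncard_eq_kc, ncard_eq_kc]
    rcases Nat.lt_or_ge ω t with h | h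
    · rw [kc_eq_zero_of_CB hCB h, zero_mul]
      exact Nat.zero_le _
    rw [kc_turan _ _ _ (by omega) hωΔ]
    obtain ⟨i, rfl⟩ : ∃ i, t = i + 2 := ⟨t - 2, by omega⟩
    rcases Nat.eq_or_lt_of_le hωΔ with h0 | hlt
    · -- no restriction on the clique number
      have h1 := core_zero H hdeg' (i + 1)
      rw [hmc] at h1
      rw [E_small (by omega)]
      exact h1
    · obtain ⟨r, rfl⟩ : ∃ r, ω = r + 1 := ⟨ω - 1, by omega⟩
      obtain ⟨s, hs⟩ : ∃ s, Δ = r + (s + 1) := ⟨Δ - r - 1, by omega⟩
      subst hs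
      have hir : i + 1 ≤ r := by omega
      have hsi : s ≤ i := by omega
      have hN : (r + s + 2) * (P s (r - (i + 1))).coeff i
          ≤ (r - s) * (P s (r - s - 1)).coeff i := by
        rcases hcond with hc | hc
        · have h1 := numN (s := s + 1) (q := r - (i + 1)) (d := i - s) (by omega) (by omega)
          rw [show s + 1 - 1 = s by omega, show s + 1 + (i - s) - 1 = i by omega,
            show r - (i + 1) + (i - s) + 2 * (s + 1) + 1 = r + s + 2 by omega,
            show r - (i + 1) + (i - s) + 1 = r - s by omega,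
            show r - (i + 1) + (i - s) = r - s - 1 by omega] at h1
          exact h1
        · rw [P_eq_zero s (r - (i + 1)) i (by omega), mul_zero]
          exact Nat.zero_le _
      have h1 := main_bound2 hsi hir hN m univ hmc hCB (fun v _ => hdeg' v)
      rw [show r + (s + 1) + 1 = r + s + 2 by ring]
      exact h1

end Pool.Agent.Results.MP_fd41b2_co.LargeCliques
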