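import Pool.Agent.H60.GT.All8
import Pool.Agent.H60.GT.Fin12

/-!
# Cliques with `t ≤ ω` vertices under a degree bound

Let `3 ≤ t ≤ ω`, `ω ≥ 4`, `Δ = (ω - 1) a + r` with `r ≤ ω - 2`, and let `a` be large in terms of `t`, `ω`
and `r`. Is the supremum of the number of `t`-cliques per vertex over all graphs with maximum degree at
most `Δ` and clique number at most `ω` attained by a finite graph? It is in the following cases.

* `t = ω`, or `r ≥ 1`, `2 r < (t - 2) (ω - 1 - r)` and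
  `t * (r - 1).choose (t - 2) < (ω - 2).choose (t - 2)`: the Turán graph with `Δ + a` vertices and `ω`
  parts attains it. For `t = ω`, `r = 1` the bound on `a` is explicit.
* `t = 3`, `ω - 1 < 3 r` and `r ≤ ω - 3`: a graph with `Δ + a + 1` vertices attains it; the number of
  triangles of this graph is given.
* `4 ≤ t < ω`, `r ≤ ω - 3`, `(t - 2) (ω - 1 - r) < 2 r` and a second inequality (which holds for `t = 4`):
  a graph with `Δ + a + 1` vertices attains it; for `r = ω - 3` the number of its `t`-cliques is given.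

For `t < ω ≤ 27`, and for `t = 3` and `t = 4`, this leaves only `r = ω - 2` and `2 r = (t - 2) (ω - 1 - r)`.
-/

set_option autoImplicit false

open Finset Pool.MC6

namespace Pool.Agent.Results.MP_fd41b2_co.MaximumCliques

/-- There is a threshold `D t ω r`, with `D ω ω 1 = max (ω - 1) ⌈ω (ω - 2) ^ 3 / 16⌉`, such that for
all `ω ≥ 4`, `3 ≤ t ≤ ω`, `r ≤ ω - 2` and `a ≥ D t ω r`, in each of the three cases, some finite graph
has the largest number of `t`-cliques per vertex among all graphs with maximum degree at most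
`(ω - 1) a + r` and without a clique with `ω + 1` vertices. For `t < ω ≤ 27` this holds for all `r` with
`1 ≤ r ≤ ω - 3` and `2 r ≠ (t - 2) (ω - 1 - r)`. -/
theorem result : ∃ D : ℕ → ℕ → ℕ → ℕ,
    (∀ ω, 4 ≤ ω → D ω ω 1 = max (ω - 1) ((ω * (ω - 2) ^ 3 + 15) / 16)) ∧
    ∀ t ω r a : ℕ, 3 ≤ t → t ≤ ω → 4 ≤ ω → r + 2 ≤ ω → D t ω r ≤ a →
      ((t = ω ∨ 1 ≤ r ∧ 2 * r < (t - 2) * (ω - 1 - r) ∧
          t * (r - 1).choose (t - 2) < (ω - 2).choose (t - 2)) →
        Attains t ((ω - 1) * a + r) ω (SimpleGraph.turanGraph (ω * a + r) ω) ∧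
        cliques t (SimpleGraph.turanGraph (ω * a + r) ω) = ∑ j ∈ range (t + 1),
          (r.choose j * (a + 1) ^ j) * ((ω - r).choose (t - j) * a ^ (t - j))) ∧
      (t = 3 ∧ r + 3 ≤ ω ∧ ω - 1 < 3 * r → ∃ R : SimpleGraph (Fin (ω * a + r + 1)),
        Attains 3 ((ω - 1) * a + r) ω R ∧
        cliques 3 R + ((ω - 1 - r) * a + 1) / 2 * ((ω - 2) * a + r + 1) =
          ∑ j ∈ range 4, ((r + 1).choose j * (a + 1) ^ j) *
            ((ω - (r + 1)).choose (3 - j) * a ^ (3 - j)) + (ω - 1 - r) * a % 2) ∧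
      (4 ≤ t ∧ t < ω ∧ r + 3 ≤ ω ∧ (t - 2) * (ω - 1 - r) < 2 * r ∧
          2 * r * t * (r - 1).choose (t - 2) +
            (t - 1) * (t - 2) * (ω - 1 - r) * (ω - 2).choose (t - 2) <
              2 * r * t * (ω - 2).choose (t - 2) →
        ∃ R : SimpleGraph (Fin (ω * a + r + 1)), Attains t ((ω - 1) * a + r) ω R ∧
          (r + 3 = ω → cliques t R = (ω - 2).choose t * (a + 1) ^ t +
            2 * a * ((ω - 2).choose (t - 1) * (a + 1) ^ (t - 1)) +
              a * (a - 1) * ((ω - 2).choose (t - 2) * (a + 1) ^ (t - 2)))) ∧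
      (t < ω ∧ ω ≤ 27 ∧ 1 ≤ r ∧ r + 3 ≤ ω ∧ 2 * r ≠ (t - 2) * (ω - 1 - r) →
        ∃ (n : ℕ) (R : SimpleGraph (Fin n)), Attains t ((ω - 1) * a + r) ω R) :=
  final12
    (partA _ (upb10 Pool.GT7.fnl_all Pool.GX7.fnx_all Pool.GV7.fn9_all Pool.MF7.fne_all))
    (partB9 Pool.ME7.cme_all Pool.ME7.fnz_all Pool.JB7.fng_all)
    (partX Pool.NG7.cmq_all Pool.NG7.fnq_all Pool.NG7.xdm_all Pool.NG7.xco_all Pool.KC7.bkj_all
      Pool.ME7.bkt_all)

end Pool.Agent.Results.MP_fd41b2_co.MaximumCliques
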