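import Pool.Agent.H23.KT.Core

/-!
# The maximal density of `t`-cliques when the clique number is close to the maximum degree
-/

open Finset

namespace Pool.Agent.Results.MP_fd41b2_co.NearComplete

open Pool.Agent.H23.KT

/-- **Theorem.** If `t ≥ 3` and `24 (t - 2) (Δ + 1 - ω) ≤ Δ` then the Turán graph with `Δ + 1`
vertices and `ω` parts maximises the number of `t`-cliques per vertex among all graphs with
maximum degree at most `Δ` and clique number at most `ω`. -/
theorem result : ∀ t Δ ω : ℕ, 3 ≤ t → 3 ≤ ω → ω ≤ Δ + 1 → 24 * (t - 2) * (Δ + 1 - ω) ≤ Δ →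
    (∀ v, ((SimpleGraph.turanGraph (Δ + 1) ω).neighborSet v).ncard ≤ Δ) ∧
    (SimpleGraph.turanGraph (Δ + 1) ω).CliqueFree (ω + 1) ∧
    {s : Finset (Fin (Δ + 1)) | (SimpleGraph.turanGraph (Δ + 1) ω).IsNClique t s}.ncard
      = ∑ i ∈ range (t + 1),
        (Δ + 1 - ω).choose i * 2 ^ i * (2 * ω - (Δ + 1)).choose (t - i) ∧
    ∀ m : ℕ, 0 < m → ∀ H : SimpleGraph (Fin m),
      (∀ v, (H.neighborSet v).ncard ≤ Δ) → H.CliqueFree (ω + 1) →
        {s : Finset (Fin m) | H.IsNClique t s}.ncard * (Δ + 1) ≤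
          {s : Finset (Fin (Δ + 1)) | (SimpleGraph.turanGraph (Δ + 1) ω).IsNClique t s}.ncard
            * m := by
  classical
  intro t Δ ω ht hω hωΔ hΔ
  obtain ⟨i, rfl⟩ : ∃ i, t = i + 3 := ⟨t - 3, by omega⟩
  rw [show i + 3 - 2 = i + 1 by omega] at hΔ
  have hΔ24 : 24 * (Δ + 1 - ω) ≤ Δ := by
    have : Δ + 1 - ω ≤ (i + 1) * (Δ + 1 - ω) := Nat.le_mul_of_pos_left _ (Nat.succ_pos i)
    nlinarith
  have h2ω : Δ + 1 ≤ 2 * ω := by omega
  refine ⟨?_, SimpleGraph.turanGraph_cliqueFree (by omega), ?_, ?_⟩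
  · intro v
    have h1 : (SimpleGraph.turanGraph (Δ + 1) ω).neighborSet v ⊆ ((univ.erase v :
        Finset (Fin (Δ + 1))) : Set (Fin (Δ + 1))) := by
      intro w hw
      rw [coe_erase, Set.mem_sdiff]
      refine ⟨mem_coe.2 (mem_univ _), ?_⟩
      rintro rfl
      exact (SimpleGraph.turanGraph (Δ + 1) ω).loopless.irrefl _ hw
    have h2 := Set.ncard_le_ncard h1 (finite_toSet _)
    rw [Set.ncard_coe_finset, card_erase_of_mem (mem_univ _), card_univ, Fintype.card_fin] at h2
    omega
  · rw [ncard_eq_kc, kc_turan _ _ _ h2ω hωΔ, E, P_formula]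
    refine sum_congr rfl (fun i _ => ?_)
    congr 2
    omega
  · intro m _ H hdeg hcf
    have hdeg' : ∀ v, (nb H univ v).card ≤ Δ := by
      intro v
      have h1 : ((nb H univ v : Finset (Fin m)) : Set (Fin m)) = H.neighborSet v := by
        ext w
        rw [mem_coe, mem_nb, SimpleGraph.mem_neighborSet]
        simp
      rw [← Set.ncard_coe_finset, h1]
      exact hdeg v
    have hCB : ∀ S : Finset (Fin m), H.IsClique (S : Set (Fin m)) → S.card ≤ ω := by
      intro S hS
      by_contra hlt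
      push Not at hlt
      obtain ⟨S', hS', hc'⟩ := exists_subset_card_eq (show ω + 1 ≤ S.card by omega)
      exact hcf S' ⟨hS.subset (by
        intro y hy
        exact mem_coe.2 (hS' (mem_coe.1 hy))), hc'⟩
    rw [ncard_eq_kc, ncard_eq_kc, kc_turan _ _ _ h2ω hωΔ]
    have hmc : (univ : Finset (Fin m)).card = m := by simp
    rcases Nat.eq_zero_or_pos (Δ + 1 - ω) with h0 | hpos
    · have h1 := core_zero H hdeg' (i + 2)
      rw [hmc] at h1
      rw [E_small (by omega)]
      exact h1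
    · have hω' : ∀ I : Finset (Fin m), H.IsClique (I : Set (Fin m)) →
          I.card + (Δ + 1 - ω) ≤ Δ + 1 := by
        intro I hI
        have := hCB I hI
        omega
      have hωeq : Δ + 1 - (Δ + 1 - ω) = ω := by omega
      rcases Nat.eq_zero_or_pos i with hi | hi
      · subst hi
        have h1 := core_three H hpos hΔ24 hdeg' hω'
        rw [hmc, hωeq] at h1
        exact h1
      · have h1 := core_gen H hpos hΔ24 hdeg' hω' hi hΔ
        rw [hmc, hωeq] at h1
        exact h1

end Pool.Agent.Results.MP_fd41b2_co.NearComplete
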