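import Pool.Agent.H7.TRI.All
import Pool.Agent.H7.TRI.Three

/-!
# The maximal density of triangles under a degree bound and a clique bound
-/

namespace Pool.Agent.Results.MP_fd41b2_co.Triangles

/-- **Theorem.** (1) `Δ ≥ 18`, `6 (Δ + 1 - ω)(Δ - 1) ≤ Δ (Δ + 1)`: the Turán graph with `Δ + 1`
vertices and `ω` parts has the most triangles per vertex among all graphs with maximum degree at
most `Δ` and clique number at most `ω`. (2) `Δ ≥ 18` even, `Δ / 2 + 1 ≤ ω`, and the reverse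
inequality: the complete multipartite graph with `Δ / 2 + 1` parts of size two has the most. So the
maximum is attained for all even `Δ ≥ 18` and all `ω ≥ Δ / 2 + 1`. (3) Clique number three:
for `t ≥ 3` and `Δ ≥ 26` the Turán graph with `Δ + ⌊Δ / 2⌋` vertices and three parts has the most
`t`-cliques per vertex. -/
theorem result :
    (∀ Δ ω : ℕ, 18 ≤ Δ → ω ≤ Δ + 1 → 6 * (Δ + 1 - ω) * (Δ - 1) ≤ Δ * (Δ + 1) →
      (∀ v, ((SimpleGraph.turanGraph (Δ + 1) ω).neighborSet v).ncard ≤ Δ) ∧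
      (SimpleGraph.turanGraph (Δ + 1) ω).CliqueFree (ω + 1) ∧
      6 * {s : Finset (Fin (Δ + 1)) | (SimpleGraph.turanGraph (Δ + 1) ω).IsNClique 3 s}.ncard
        + 6 * (Δ + 1 - ω) * (Δ - 1) = (Δ + 1) * Δ * (Δ - 1) ∧
      ∀ m : ℕ, 0 < m → ∀ H : SimpleGraph (Fin m),
        (∀ v, (H.neighborSet v).ncard ≤ Δ) → H.CliqueFree (ω + 1) →
          {s : Finset (Fin m) | H.IsNClique 3 s}.ncard * (Δ + 1) ≤
            {s : Finset (Fin (Δ + 1)) | (SimpleGraph.turanGraph (Δ + 1) ω).IsNClique 3 s}.ncard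
              * m) ∧
    (∀ Δ ω : ℕ, 18 ≤ Δ → Even Δ → Δ / 2 + 1 ≤ ω → ω ≤ Δ + 1 →
      Δ * (Δ + 1) ≤ 6 * (Δ + 1 - ω) * (Δ - 1) →
      (∀ v, ((SimpleGraph.turanGraph (Δ + 2) (Δ / 2 + 1)).neighborSet v).ncard ≤ Δ) ∧
      (SimpleGraph.turanGraph (Δ + 2) (Δ / 2 + 1)).CliqueFree (ω + 1) ∧
      6 * {s : Finset (Fin (Δ + 2)) |
          (SimpleGraph.turanGraph (Δ + 2) (Δ / 2 + 1)).IsNClique 3 s}.ncard
        = (Δ + 2) * Δ * (Δ - 2) ∧
      ∀ m : ℕ, 0 < m → ∀ H : SimpleGraph (Fin m),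
        (∀ v, (H.neighborSet v).ncard ≤ Δ) → H.CliqueFree (ω + 1) →
          {s : Finset (Fin m) | H.IsNClique 3 s}.ncard * (Δ + 2) ≤
            {s : Finset (Fin (Δ + 2)) |
              (SimpleGraph.turanGraph (Δ + 2) (Δ / 2 + 1)).IsNClique 3 s}.ncard * m) ∧
    (∀ t Δ : ℕ, 3 ≤ t → 26 ≤ Δ →
      (∀ v, ((SimpleGraph.turanGraph (Δ + Δ / 2) 3).neighborSet v).ncard ≤ Δ) ∧
      (SimpleGraph.turanGraph (Δ + Δ / 2) 3).CliqueFree (3 + 1) ∧
      {s : Finset (Fin (Δ + Δ / 2)) | (SimpleGraph.turanGraph (Δ + Δ / 2) 3).IsNClique 3 s}.ncard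
        = (Δ / 2) ^ 2 * (Δ - Δ / 2) ∧
      ∀ m : ℕ, 0 < m → ∀ H : SimpleGraph (Fin m),
        (∀ v, (H.neighborSet v).ncard ≤ Δ) → H.CliqueFree (3 + 1) →
          {s : Finset (Fin m) | H.IsNClique t s}.ncard * (Δ + Δ / 2) ≤
            {s : Finset (Fin (Δ + Δ / 2)) |
              (SimpleGraph.turanGraph (Δ + Δ / 2) 3).IsNClique t s}.ncard * m) := by
  refine ⟨fun Δ ω h1 h2 h3 => (Pool.TRI.final Δ ω h1 h2).1 h3, fun Δ ω h1 h2 h3 h4 h5 => ?_,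
    Pool.TRI.three⟩
  refine (Pool.TRI.final Δ ω h1 h4).2 h5 h2 ?_
  obtain ⟨a, ha⟩ := h2
  omega

end Pool.Agent.Results.MP_fd41b2_co.Triangles
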